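import Mathlib
import Pool.Agent.V1125.Inv.Struct

/-!
# MP_32cd73_al: the involution proportions of finite groups are not dense in `[0, 1/2]`
-/

set_option autoImplicit false

namespace Pool.Agent.Results.MP_32cd73_al.InvolutionProportions

open Set
open scoped commutatorElement

/-- The proportion of involutions (elements of order exactly `2`) in `G`. -/
noncomputable def invProp (G : Type) [Group G] : ℝ :=
  (Nat.card {x : G // orderOf x = 2} : ℝ) / (Nat.card G : ℝ)

/-- The set of the involution proportions of all finite groups. -/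
def InvSet : Set ℝ := {r | ∃ (G : Type) (_ : Group G) (_ : Finite G), r = invProp G}

theorem card_sq (G : Type) [Group G] [Finite G] :
    Nat.card {x : G // x * x = 1} = Nat.card {x : G // orderOf x = 2} + 1 := by
  classical
  have : Fintype G := Fintype.ofFinite G
  rw [Nat.card_eq_fintype_card, Nat.card_eq_fintype_card, Fintype.card_subtype,
    Fintype.card_subtype]
  have h : (Finset.univ.filter fun x : G => x * x = 1) =
      insert 1 (Finset.univ.filter fun x : G => orderOf x = 2) := by
    ext x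
    simp only [Finset.mem_filter, Finset.mem_univ, true_and, Finset.mem_insert]
    constructor
    · intro h
      by_cases hx : x = 1
      · exact Or.inl hx
      · exact Or.inr (orderOf_eq_prime (by rw [sq]; exact h) hx)
    · rintro (rfl | h)
      · simp
      · rw [← sq, ← h, pow_orderOf_eq_one]
  rw [h, Finset.card_insert_of_notMem]
  simp

/-- A compact countable set of complex numbers containing all large involution proportions. -/
theorem exists_CC (ε : ℝ) (hε : 0 < ε) : ∃ E : Set ℂ, V1125.Inv.CC E ∧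
    ∀ (G : Type) [Group G] [Finite G], ε ≤ invProp G → ((invProp G : ℝ) : ℂ) ∈ E := by
  obtain ⟨M, s, h⟩ := V1125.Inv.structure_thm ε hε
  refine ⟨⋃ p ∈ (Set.Icc 1 M ×ˢ Set.Icc 1 s : Set (ℕ × ℕ)),
    Set.image2 (· - ·) ((fun z => z / (p.1 : ℂ)) '' V1125.Inv.sumSet p.1 (V1125.Inv.CS p.2))
      V1125.Inv.Rec, ?_, ?_⟩
  · refine V1125.Inv.CC.biUnion (((Set.finite_Icc 1 M).prod (Set.finite_Icc 1 s))) ?_
    rintro ⟨m, b⟩ ⟨_, hb⟩
    have hb' : 0 < b := hb.1
    exact (((V1125.Inv.CC_CS b hb').sumSet m).image _ (by fun_prop)).image2 V1125.Inv.CC_Rec _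
      (by exact continuous_sub)
  · intro G _ _ hG
    have hG0 : (0 : ℝ) < Nat.card G := by exact_mod_cast Nat.card_pos
    have hj : ε * (Nat.card G : ℝ) ≤ Nat.card {x : G // x * x = 1} := by
      rw [card_sq]
      unfold invProp at hG
      rw [le_div_iff₀ hG0] at hG
      push_cast
      linarith
    obtain ⟨W, K, hW, hKW, hcomm, hcent, hM, hs⟩ := h G hj
    rw [Set.mem_iUnion₂]
    refine ⟨(W.index, Nat.card K), ⟨⟨Nat.pos_of_ne_zero W.index_ne_zero_of_finite, hM⟩,
      ⟨Nat.card_pos, hs⟩⟩, ?_⟩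
    refine ⟨_, V1125.Inv.j_mem W K hKW hcomm hcent, _, V1125.Inv.rec_mem (n := Nat.card G)
      Nat.card_pos, ?_⟩
    simp only
    rw [card_sq]
    unfold invProp
    push_cast
    ring

theorem invProp_nonneg (G : Type) [Group G] : 0 ≤ invProp G := by
  unfold invProp; positivity

theorem countable_closure : (closure InvSet).Countable := by
  have h1 : ∀ n : ℕ, ∃ E : Set ℝ, IsClosed E ∧ E.Countable ∧
      InvSet ∩ Set.Ioi (1 / ((n : ℝ) + 1)) ⊆ E := by
    intro n
    obtain ⟨E, ⟨hE1, hE2⟩, hE3⟩ := exists_CC (1 / ((n : ℝ) + 1)) (by positivity)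
    refine ⟨(fun x : ℝ => (x : ℂ)) ⁻¹' E, hE1.isClosed.preimage Complex.continuous_ofReal,
      hE2.preimage Complex.ofReal_injective, ?_⟩
    rintro r ⟨⟨G, i1, i2, rfl⟩, hr⟩
    exact hE3 G (le_of_lt hr)
  choose E hE1 hE2 hE3 using h1
  have h2 : closure InvSet ⊆ {0} ∪ ⋃ n, E n := by
    intro t ht
    have ht0 : 0 ≤ t := by
      have : closure InvSet ⊆ Set.Ici 0 := closure_minimal (by
        rintro r ⟨G, i1, i2, rfl⟩
        exact invProp_nonneg G) isClosed_Ici
      exact this ht
    rcases ht0.eq_or_lt with h | h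
    · left; exact h.symm
    · right
      obtain ⟨n, hn⟩ := exists_nat_one_div_lt h
      rw [Set.mem_iUnion]
      refine ⟨n, ?_⟩
      have h3 : t ∈ closure (Set.Ioi (1 / ((n : ℝ) + 1)) ∩ InvSet) :=
        isOpen_Ioi.inter_closure ⟨hn, ht⟩
      exact closure_minimal (by rw [Set.inter_comm]; exact hE3 n) (hE1 n) h3
  exact ((Set.countable_singleton _).union (Set.countable_iUnion hE2)).mono h2

theorem interior_closure : interior (closure InvSet) = ∅ :=
  interior_eq_empty_iff_dense_compl.2 (countable_closure.dense_compl ℝ)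

/-- The involution proportions are not dense in `[0, 1/2]`; indeed their closure is a countable
set, so they are dense in no interval. -/
theorem result :
    (∃ t ∈ Set.Icc (0 : ℝ) (1 / 2), ∃ ε > 0,
      ¬ ∃ (G : Type) (_ : Group G) (_ : Finite G), |invProp G - t| < ε) ∧
    (∀ a b : ℝ, a < b → ∃ c d : ℝ, a < c ∧ c < d ∧ d < b ∧
      ∀ (G : Type) [Group G] [Finite G], invProp G ∉ Set.Ioo c d) ∧
    (closure InvSet).Countable := by
  have key : ∀ a b : ℝ, a < b → ∃ c d : ℝ, a < c ∧ c < d ∧ d < b ∧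
      ∀ (G : Type) [Group G] [Finite G], invProp G ∉ Set.Ioo c d := by
    intro a b hab
    have h1 : ¬ Set.Ioo a b ⊆ closure InvSet := by
      intro h
      have h2 : Set.Ioo a b ⊆ interior (closure InvSet) := interior_maximal h isOpen_Ioo
      rw [interior_closure] at h2
      exact (Set.nonempty_Ioo.2 hab).not_subset_empty h2
    obtain ⟨t, ht, htI⟩ := Set.not_subset.1 h1
    have h3 : (Set.Ioo a b ∩ (closure InvSet)ᶜ) ∈ nhds t :=
      Filter.inter_mem (isOpen_Ioo.mem_nhds ht) (isClosed_closure.isOpen_compl.mem_nhds htI)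
    obtain ⟨δ, hδ, hδ'⟩ := Metric.mem_nhds_iff.1 h3
    have h4 : ∀ x, |x - t| < δ → x ∈ Set.Ioo a b ∧ x ∉ closure InvSet := by
      intro x hx
      exact hδ' (by rw [Metric.mem_ball, Real.dist_eq]; exact hx)
    refine ⟨t - δ / 2, t + δ / 2, ?_, by linarith, ?_, ?_⟩
    · exact (h4 (t - δ / 2) (by rw [show t - δ / 2 - t = -(δ / 2) by ring, abs_neg, abs_of_pos (by linarith)]; linarith)).1.1
    · exact (h4 (t + δ / 2) (by rw [show t + δ / 2 - t = δ / 2 by ring, abs_of_pos (by linarith)]; linarith)).1.2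
    · intro G i1 i2 hG
      refine (h4 (invProp G) ?_).2 (subset_closure ⟨G, i1, i2, rfl⟩)
      rw [abs_lt]
      constructor <;> linarith [hG.1, hG.2]
  refine ⟨?_, key, countable_closure⟩
  obtain ⟨c, d, hc, hcd, hd, h⟩ := key 0 (1 / 2) (by norm_num)
  refine ⟨(c + d) / 2, ⟨by linarith, by linarith⟩, (d - c) / 2, by linarith, ?_⟩
  rintro ⟨G, i1, i2, hG⟩
  rw [abs_lt] at hG
  exact h G ⟨by linarith [hG.1], by linarith [hG.2]⟩

end Pool.Agent.Results.MP_32cd73_al.InvolutionProportions
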